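import Mathlib

/-!
Stein's 1975 question: must an `n`-square in which every symbol occurs in at most `n-1` cells have a
latin transversal?  The answer is no: for `n = 2c²` there is an `n`-square in which every symbol
occurs in at most `n - 2⌊(c-1)/6⌋` cells and which has no latin transversal.
-/

namespace Pool.Agent.Results.MP_4f9096_co.ParityBlowup

/-- the rows (and the columns): `2c` classes of `c` lines each -/
abbrev P (c : ℕ) := Fin (2 * c) × Fin c

/-- symbols: new ones, symbols of the off-diagonal blocks, symbols of the diagonal blocks -/
abbrev Sym' := (ℕ × ℕ) ⊕ ((ℕ × ℕ) ⊕ ℕ)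

/-- a local cell that is recoloured -/
def Rec (w : ℕ) {c : ℕ} (u v : Fin c) : Prop := v.val = 0 ∧ u.val < w

instance (w : ℕ) {c : ℕ} (u v : Fin c) : Decidable (Rec w u v) := by unfold Rec; infer_instance

/-- the array -/
def B (w : ℕ) {c : ℕ} (p q : P c) : Sym' :=
  if Rec w p.2 q.2 then Sum.inl (p.2.val, p.1.val % 3)
  else if p.1 = q.1 then Sum.inr (Sum.inr (p.1.val / 2))
  else Sum.inr (Sum.inl (min p.1.val q.1.val, max p.1.val q.1.val))

section count

variable {w c : ℕ}

lemma card_rec (hw : w ≤ c) :
    (Finset.univ.filter fun x : Fin c × Fin c => ¬ Rec w x.1 x.2).card = c * c - w := by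
  have h1 : (Finset.univ.filter fun x : Fin c × Fin c => Rec w x.1 x.2).card = w := by
    rcases Nat.eq_zero_or_pos c with h0 | h0
    · subst h0
      have : w = 0 := by omega
      subst this
      rfl
    · have : (Finset.univ.filter fun x : Fin c × Fin c => Rec w x.1 x.2)
          = (Finset.univ.filter fun u : Fin c => u.val < w) ×ˢ {(⟨0, h0⟩ : Fin c)} := by
        ext x
        rw [Finset.mem_filter, Finset.mem_product, Finset.mem_filter, Finset.mem_singleton,
          Fin.ext_iff]
        simp only [Finset.mem_univ, true_and, Rec]
        tauto
      rw [this, Finset.card_product, Finset.card_singleton, mul_one]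
      rw [Fin.card_filter_val_lt]
      exact min_eq_right hw
  have h2 := Finset.card_filter_add_card_filter_not (s := (Finset.univ : Finset (Fin c × Fin c)))
    (fun x => Rec w x.1 x.2)
  rw [h1] at h2
  simp only [Finset.card_univ, Fintype.card_prod, Fintype.card_fin] at h2
  omega

lemma card_mod (m : ℕ) : 3 * (Finset.univ.filter fun i : Fin (2 * c) => i.val % 3 = m).card
    ≤ 2 * c + 2 := by
  have h1 : (Finset.univ.filter fun i : Fin (2 * c) => i.val % 3 = m).card
      = ((Finset.range (2 * c)).filter fun i => i % 3 = m).card := by
    apply Finset.card_bij (fun i _ => i.val)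
    · intro i hi
      simp only [Finset.mem_filter, Finset.mem_univ, true_and] at hi
      simp [hi]
    · intro i _ j _ h
      exact Fin.ext h
    · intro i hi
      simp only [Finset.mem_filter, Finset.mem_range] at hi
      exact ⟨⟨i, hi.1⟩, by simp [hi.2], rfl⟩
  rw [h1]
  have h2 : ∀ n : ℕ, 3 * ((Finset.range n).filter fun i => i % 3 = m).card ≤ n + 2 := by
    intro n
    have h3 : ((Finset.range n).filter fun i => i % 3 = m).card ≤ (n + 2) / 3 := by
      calc ((Finset.range n).filter fun i => i % 3 = m).card
          ≤ (Finset.range ((n + 2) / 3)).card := by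
            apply Finset.card_le_card_of_injOn (fun i => i / 3)
            · intro i hi
              simp only [Finset.mem_coe, Finset.mem_filter, Finset.mem_range] at hi
              simp only [Finset.mem_coe, Finset.mem_range]
              omega
            · intro i hi j hj h
              simp only [Finset.mem_coe, Finset.mem_filter, Finset.mem_range] at hi hj
              simp only at h
              omega
        _ = (n + 2) / 3 := Finset.card_range _
    omega
  exact h2 _

lemma B_inl {p q : P c} {a m : ℕ} (h : B w p q = Sum.inl (a, m)) :
    Rec w p.2 q.2 ∧ p.2.val = a ∧ p.1.val % 3 = m := by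
  unfold B at h
  by_cases h1 : Rec w p.2 q.2
  · rw [if_pos h1] at h
    simp only [Sum.inl.injEq, Prod.mk.injEq] at h
    exact ⟨h1, h.1, h.2⟩
  · rw [if_neg h1] at h
    by_cases h2 : p.1 = q.1
    · rw [if_pos h2] at h
      exact absurd h (by simp)
    · rw [if_neg h2] at h
      exact absurd h (by simp)

lemma B_off {p q : P c} {a b : ℕ} (h : B w p q = Sum.inr (Sum.inl (a, b))) :
    ¬ Rec w p.2 q.2 ∧ p.1.val ≠ q.1.val ∧ min p.1.val q.1.val = a ∧ max p.1.val q.1.val = b := by
  unfold B at h
  by_cases h1 : Rec w p.2 q.2
  · rw [if_pos h1] at h
    exact absurd h (by simp)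
  · rw [if_neg h1] at h
    by_cases h2 : p.1 = q.1
    · rw [if_pos h2] at h
      exact absurd h (by simp)
    · rw [if_neg h2] at h
      simp only [Sum.inr.injEq, Sum.inl.injEq, Prod.mk.injEq] at h
      exact ⟨h1, fun h3 => h2 (Fin.ext h3), h.1, h.2⟩

lemma B_dg {p q : P c} {l : ℕ} (h : B w p q = Sum.inr (Sum.inr l)) :
    ¬ Rec w p.2 q.2 ∧ p.1.val = q.1.val ∧ p.1.val / 2 = l := by
  unfold B at h
  by_cases h1 : Rec w p.2 q.2
  · rw [if_pos h1] at h
    exact absurd h (by simp)
  · rw [if_neg h1] at h
    by_cases h2 : p.1 = q.1
    · rw [if_pos h2] at h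
      simp only [Sum.inr.injEq] at h
      exact ⟨h1, congrArg Fin.val h2, h⟩
    · rw [if_neg h2] at h
      exact absurd h (by simp)

lemma count_le (h6 : 6 * w < c) (s : Sym') :
    (Finset.univ.filter fun x : P c × P c => B w x.1 x.2 = s).card ≤ 2 * c ^ 2 - 2 * w := by
  have hw : w ≤ c := by omega
  rcases s with ⟨a, m⟩ | ⟨a, b⟩ | l
  · -- new symbol
    have h1 : (Finset.univ.filter fun x : P c × P c => B w x.1 x.2 = Sum.inl (a, m)).card
        ≤ ((Finset.univ.filter fun i : Fin (2 * c) => i.val % 3 = m) ×ˢ
            (Finset.univ : Finset (Fin (2 * c)))).card := by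
      apply Finset.card_le_card_of_injOn (fun x => (x.1.1, x.2.1))
      · intro x hx
        replace hx := B_inl (Finset.mem_filter.mp (Finset.mem_coe.mp hx)).2
        simp only [Finset.mem_coe, Finset.mem_product, Finset.mem_filter, Finset.mem_univ,
          true_and, and_true]
        exact hx.2.2
      · intro x hx y hy h
        replace hx := B_inl (Finset.mem_filter.mp (Finset.mem_coe.mp hx)).2
        replace hy := B_inl (Finset.mem_filter.mp (Finset.mem_coe.mp hy)).2
        simp only [Prod.mk.injEq, Rec] at h hx hy
        ext
        · exact congrArg Fin.val h.1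
        · omega
        · exact congrArg Fin.val h.2
        · omega
    rw [Finset.card_product, Finset.card_univ, Fintype.card_fin] at h1
    have h2 := card_mod (c := c) m
    have h3 : 3 * ((Finset.univ.filter fun i : Fin (2 * c) => i.val % 3 = m).card * (2 * c))
        ≤ (2 * c + 2) * (2 * c) := by
      calc 3 * ((Finset.univ.filter fun i : Fin (2 * c) => i.val % 3 = m).card * (2 * c))
          = (3 * (Finset.univ.filter fun i : Fin (2 * c) => i.val % 3 = m).card) * (2 * c) := by
            ring
        _ ≤ _ := Nat.mul_le_mul_right _ h2
    have h4 : 3 * (Finset.univ.filter fun x : P c × P c => B w x.1 x.2 = Sum.inl (a, m)).card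
        ≤ (2 * c + 2) * (2 * c) := le_trans (Nat.mul_le_mul_left 3 h1) h3
    rcases Nat.lt_or_ge c 3 with hc | hc
    · have hw0 : w = 0 := by omega
      subst hw0
      -- no recoloured cell at all
      have : (Finset.univ.filter fun x : P c × P c => B 0 x.1 x.2 = Sum.inl (a, m)) = ∅ := by
        apply Finset.filter_eq_empty_iff.mpr
        intro x _ hx
        have := (B_inl hx).1
        simp only [Rec] at this
        omega
      rw [this]
      simp
    · have h5 : (2 * c + 2) * (2 * c) + 6 * w ≤ 6 * c ^ 2 := by nlinarith
      omega
  · -- off-diagonal block symbol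
    have h1 : (Finset.univ.filter fun x : P c × P c =>
          B w x.1 x.2 = Sum.inr (Sum.inl (a, b))).card
        ≤ ((Finset.univ : Finset Bool) ×ˢ
            (Finset.univ.filter fun x : Fin c × Fin c => ¬ Rec w x.1 x.2)).card := by
      apply Finset.card_le_card_of_injOn
        (fun x => (decide (x.1.1.val = a), (x.1.2, x.2.2)))
      · intro x hx
        replace hx := B_off (Finset.mem_filter.mp (Finset.mem_coe.mp hx)).2
        simp only [Finset.mem_coe, Finset.mem_product, Finset.mem_filter, Finset.mem_univ,
          true_and]
        exact hx.1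
      · intro x hx y hy h
        obtain ⟨-, hx1, hx2, hx3⟩ := B_off (Finset.mem_filter.mp (Finset.mem_coe.mp hx)).2
        obtain ⟨-, hy1, hy2, hy3⟩ := B_off (Finset.mem_filter.mp (Finset.mem_coe.mp hy)).2
        simp only [Prod.mk.injEq] at h
        obtain ⟨ha, hb, hd⟩ := h
        have ha' : (x.1.1.val = a) ↔ (y.1.1.val = a) := by simpa using ha
        ext
        · omega
        · exact congrArg Fin.val hb
        · omega
        · exact congrArg Fin.val hd
    rw [Finset.card_product, card_rec hw, Finset.card_univ, Fintype.card_bool] at h1
    have : 2 * (c * c - w) = 2 * c ^ 2 - 2 * w := by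
      rw [Nat.mul_sub]; ring_nf
    omega
  · -- diagonal block symbol
    have h1 : (Finset.univ.filter fun x : P c × P c =>
          B w x.1 x.2 = Sum.inr (Sum.inr l)).card
        ≤ ((Finset.univ : Finset Bool) ×ˢ
            (Finset.univ.filter fun x : Fin c × Fin c => ¬ Rec w x.1 x.2)).card := by
      apply Finset.card_le_card_of_injOn
        (fun x => (decide (x.1.1.val % 2 = 0), (x.1.2, x.2.2)))
      · intro x hx
        replace hx := B_dg (Finset.mem_filter.mp (Finset.mem_coe.mp hx)).2
        simp only [Finset.mem_coe, Finset.mem_product, Finset.mem_filter, Finset.mem_univ,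
          true_and]
        exact hx.1
      · intro x hx y hy h
        obtain ⟨-, hx1, hx2⟩ := B_dg (Finset.mem_filter.mp (Finset.mem_coe.mp hx)).2
        obtain ⟨-, hy1, hy2⟩ := B_dg (Finset.mem_filter.mp (Finset.mem_coe.mp hy)).2
        simp only [Prod.mk.injEq] at h
        obtain ⟨ha, hb, hd⟩ := h
        have ha' : (x.1.1.val % 2 = 0) ↔ (y.1.1.val % 2 = 0) := by simpa using ha
        ext
        · omega
        · exact congrArg Fin.val hb
        · omega
        · exact congrArg Fin.val hd
    rw [Finset.card_product, card_rec hw, Finset.card_univ, Fintype.card_bool] at h1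
    have : 2 * (c * c - w) = 2 * c ^ 2 - 2 * w := by
      rw [Nat.mul_sub]; ring_nf
    omega

end count

section notrans

variable {w c : ℕ}

lemma no_transversal (h6 : 6 * w < c) (σ : Equiv.Perm (P c))
    (hinj : Function.Injective fun p => B w p (σ p)) : False := by
  classical
  -- the three kinds of cells
  set Nw : Finset (P c) := Finset.univ.filter fun p => Rec w p.2 (σ p).2 with hNw
  set Dg : Finset (P c) := Finset.univ.filter fun p => ¬ Rec w p.2 (σ p).2 ∧ p.1 = (σ p).1 with hDg
  set Of : Finset (P c) := Finset.univ.filter fun p => ¬ Rec w p.2 (σ p).2 ∧ p.1 ≠ (σ p).1 with hOf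
  have hB1 : ∀ p ∈ Nw, B w p (σ p) = Sum.inl (p.2.val, p.1.val % 3) := by
    intro p hp
    simp only [hNw, Finset.mem_filter, Finset.mem_univ, true_and] at hp
    simp only [B, if_pos hp]
  have hB2 : ∀ p ∈ Dg, B w p (σ p) = Sum.inr (Sum.inr (p.1.val / 2)) := by
    intro p hp
    simp only [hDg, Finset.mem_filter, Finset.mem_univ, true_and] at hp
    simp only [B, if_neg hp.1, if_pos hp.2]
  have hB3 : ∀ p ∈ Of, B w p (σ p)
      = Sum.inr (Sum.inl (min p.1.val (σ p).1.val, max p.1.val (σ p).1.val)) := by
    intro p hp
    simp only [hOf, Finset.mem_filter, Finset.mem_univ, true_and] at hp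
    simp only [B, if_neg hp.1, if_neg hp.2]
  -- number of new cells
  have hN : Nw.card ≤ 3 * w := by
    calc Nw.card ≤ ((Finset.range w) ×ˢ (Finset.range 3)).card := by
          apply Finset.card_le_card_of_injOn (fun p => (p.2.val, p.1.val % 3))
          · intro p hp
            have hp' : Rec w p.2 (σ p).2 := (Finset.mem_filter.mp (Finset.mem_coe.mp hp)).2
            simp only [Finset.mem_coe, Finset.mem_product, Finset.mem_range]
            exact ⟨hp'.2, Nat.mod_lt _ (by norm_num)⟩
          · intro p hp q hq h
            apply hinj
            show B w p (σ p) = B w q (σ q)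
            rw [hB1 p hp, hB1 q hq]
            exact congrArg Sum.inl h
      _ = 3 * w := by rw [Finset.card_product, Finset.card_range, Finset.card_range]; ring
  -- number of diagonal cells
  have hD : Dg.card ≤ c := by
    calc Dg.card ≤ (Finset.range c).card := by
          apply Finset.card_le_card_of_injOn (fun p => p.1.val / 2)
          · intro p hp
            simp only [Finset.mem_coe, Finset.mem_range]
            have := p.1.isLt
            omega
          · intro p hp q hq h
            apply hinj
            show B w p (σ p) = B w q (σ q)
            rw [hB2 p hp, hB2 q hq]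
            exact congrArg (fun x => Sum.inr (Sum.inr x)) h
      _ = c := Finset.card_range _
  -- total
  have htot : Nw.card + (Dg.card + Of.card) = 2 * c * c := by
    have h1 := Finset.card_filter_add_card_filter_not (s := (Finset.univ : Finset (P c)))
      (fun p => Rec w p.2 (σ p).2)
    have h2 := Finset.card_filter_add_card_filter_not
      (s := (Finset.univ : Finset (P c)).filter fun p => ¬ Rec w p.2 (σ p).2)
      (fun p => p.1 = (σ p).1)
    rw [Finset.filter_filter, Finset.filter_filter] at h2
    simp only [Finset.card_univ, Fintype.card_prod, Fintype.card_fin] at h1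
    rw [← h2] at h1
    exact h1
  -- per class
  have hcls : ∀ i : Fin (2 * c),
      (Of.filter fun p => p.1 = i).card + (Of.filter fun p => (σ p).1 = i).card
        + 2 * (Dg.filter fun p => p.1 = i).card ≤ 2 * c - 1 + (Dg.filter fun p => p.1 = i).card := by
    intro i
    have hcp : 0 < c := by omega
    have ha : (Of.filter fun p => p.1 = i).card + (Dg.filter fun p => p.1 = i).card ≤ c := by
      rw [← Finset.card_union_of_disjoint]
      · calc ((Of.filter fun p => p.1 = i) ∪ (Dg.filter fun p => p.1 = i)).card
            ≤ (Finset.univ : Finset (Fin c)).card := by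
              apply Finset.card_le_card_of_injOn (fun p => p.2)
              · intro p _; simp
              · intro p hp q hq h
                simp only [Finset.mem_coe, Finset.mem_union, Finset.mem_filter] at hp hq
                have hp1 : p.1 = i := by rcases hp with hp | hp <;> exact hp.2
                have hq1 : q.1 = i := by rcases hq with hq | hq <;> exact hq.2
                exact Prod.ext (hp1.trans hq1.symm) h
          _ = c := by simp
      · rw [Finset.disjoint_left]
        intro p hp hq
        simp only [hOf, hDg, Finset.mem_filter, Finset.mem_univ, true_and] at hp hq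
        exact hp.1.2 hq.1.2
    have hb : (Of.filter fun p => (σ p).1 = i).card + (Dg.filter fun p => p.1 = i).card ≤ c := by
      rw [← Finset.card_union_of_disjoint]
      · calc ((Of.filter fun p => (σ p).1 = i) ∪ (Dg.filter fun p => p.1 = i)).card
            ≤ (Finset.univ : Finset (Fin c)).card := by
              apply Finset.card_le_card_of_injOn (fun p => (σ p).2)
              · intro p _; simp
              · intro p hp q hq h
                simp only [Finset.mem_coe, Finset.mem_union, Finset.mem_filter] at hp hq
                have aux : ∀ r : P c, ((r ∈ Of ∧ (σ r).1 = i) ∨ (r ∈ Dg ∧ r.1 = i)) →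
                    (σ r).1 = i := by
                  intro r hr
                  rcases hr with hr | hr
                  · exact hr.2
                  · have := hr.1
                    simp only [hDg, Finset.mem_filter, Finset.mem_univ, true_and] at this
                    rw [← this.2]; exact hr.2
                exact σ.injective (Prod.ext ((aux p hp).trans (aux q hq).symm) h)
          _ = c := by simp
      · rw [Finset.disjoint_left]
        intro p hp hq
        simp only [hOf, hDg, Finset.mem_filter, Finset.mem_univ, true_and] at hp hq
        exact hp.1.2 hq.1.2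
    have hc : (Of.filter fun p => p.1 = i).card + (Of.filter fun p => (σ p).1 = i).card
        ≤ 2 * c - 1 := by
      rw [← Finset.card_union_of_disjoint]
      · calc ((Of.filter fun p => p.1 = i) ∪ (Of.filter fun p => (σ p).1 = i)).card
            ≤ ((Finset.univ : Finset (Fin (2 * c))).erase i).card := by
              apply Finset.card_le_card_of_injOn (fun p => if p.1 = i then (σ p).1 else p.1)
              · intro p hp
                simp only [Finset.mem_coe, Finset.mem_union, hOf, Finset.mem_filter, Finset.mem_univ,
                  true_and] at hp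
                simp only [Finset.mem_coe, Finset.mem_erase, Finset.mem_univ, and_true]
                split_ifs with h1
                · intro h2
                  rcases hp with hp | hp
                  · exact hp.1.2 (h1.trans h2.symm)
                  · exact hp.1.2 (h1.trans h2.symm)
                · exact h1
              · intro p hp q hq h
                have hp' : p ∈ Of ∧ (p.1 = i ∨ (σ p).1 = i) := by
                  simp only [Finset.mem_coe, Finset.mem_union, Finset.mem_filter] at hp
                  tauto
                have hq' : q ∈ Of ∧ (q.1 = i ∨ (σ q).1 = i) := by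
                  simp only [Finset.mem_coe, Finset.mem_union, Finset.mem_filter] at hq
                  tauto
                apply hinj
                show B w p (σ p) = B w q (σ q)
                rw [hB3 p hp'.1, hB3 q hq'.1]
                simp only at h
                have hk : (min p.1.val (σ p).1.val = min q.1.val (σ q).1.val) ∧
                    (max p.1.val (σ p).1.val = max q.1.val (σ q).1.val) := by
                  obtain ⟨_, hp2⟩ := hp'
                  obtain ⟨_, hq2⟩ := hq'
                  simp only [Fin.ext_iff] at hp2 hq2
                  split_ifs at h with h1 h2 h2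
                  all_goals
                    simp only [Fin.ext_iff] at h h1 h2
                    omega
                rw [hk.1, hk.2]
          _ = 2 * c - 1 := by
              rw [Finset.card_erase_of_mem (Finset.mem_univ _), Finset.card_univ,
                Fintype.card_fin]
      · rw [Finset.disjoint_left]
        intro p hp hq
        simp only [hOf, Finset.mem_filter, Finset.mem_univ, true_and] at hp hq
        exact hp.1.2 (hp.2.trans hq.2.symm)
    omega
  -- sum over classes
  have hs1 : ∑ i : Fin (2 * c), (Of.filter fun p => p.1 = i).card = Of.card :=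
    (Finset.card_eq_sum_card_fiberwise (f := fun p : P c => p.1) (t := Finset.univ)
      (fun p _ => by simp)).symm
  have hs2 : ∑ i : Fin (2 * c), (Of.filter fun p => (σ p).1 = i).card = Of.card :=
    (Finset.card_eq_sum_card_fiberwise (f := fun p : P c => (σ p).1) (t := Finset.univ)
      (fun p _ => by simp)).symm
  have hs3 : ∑ i : Fin (2 * c), (Dg.filter fun p => p.1 = i).card = Dg.card :=
    (Finset.card_eq_sum_card_fiberwise (f := fun p : P c => p.1) (t := Finset.univ)
      (fun p _ => by simp)).symm
  have hsum := Finset.sum_le_sum (s := (Finset.univ : Finset (Fin (2 * c)))) fun i _ => hcls i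
  rw [Finset.sum_add_distrib, Finset.sum_add_distrib, Finset.sum_add_distrib, ← Finset.mul_sum,
    hs1, hs2, hs3, Finset.sum_const, Finset.card_univ, Fintype.card_fin, smul_eq_mul] at hsum
  have h7 : 2 * c * (2 * c - 1) + 2 * c = 4 * (c * c) := by
    rcases Nat.eq_zero_or_pos c with h0 | h0
    · omega
    · have : 2 * c * (2 * c - 1) + 2 * c = 2 * c * ((2 * c - 1) + 1) := by ring
      rw [this, Nat.sub_add_cancel (by omega)]
      ring
  have h8 : 2 * c * c = 2 * (c * c) := by ring
  omega

end notrans

/-- **Disproof of Stein's question.**  For every `c ≥ 7`, with `n = 2c²`, there is an `n × n` array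
in which every symbol occurs in at most `n - 2⌊(c-1)/6⌋` cells (in particular at most `n - 2` cells)
and in which every transversal contains two cells with the same symbol. -/
theorem result (c : ℕ) (hc : 7 ≤ c) :
    ∃ A : Fin (2 * c ^ 2) → Fin (2 * c ^ 2) → ℕ,
      (∀ s : ℕ, (Finset.univ.filter fun x : Fin (2 * c ^ 2) × Fin (2 * c ^ 2) =>
          A x.1 x.2 = s).card ≤ 2 * c ^ 2 - 2 * ((c - 1) / 6)) ∧
      ∀ σ : Equiv.Perm (Fin (2 * c ^ 2)), ∃ i j : Fin (2 * c ^ 2),
        i ≠ j ∧ A i (σ i) = A j (σ j) := by
  classical
  set w := (c - 1) / 6 with hwdef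
  have h6 : 6 * w < c := by omega
  have hcard : Fintype.card (Fin (2 * c ^ 2)) = Fintype.card (P c) := by
    simp only [Fintype.card_fin, Fintype.card_prod]; ring
  let e : Fin (2 * c ^ 2) ≃ P c := Fintype.equivOfCardEq hcard
  refine ⟨fun i j => Encodable.encode (B w (e i) (e j)), ?_, ?_⟩
  · intro s
    by_cases hs : ∃ t : Sym', Encodable.encode t = s
    · obtain ⟨t, rfl⟩ := hs
      refine le_trans ?_ (count_le h6 t)
      apply Finset.card_le_card_of_injOn (fun x => (e x.1, e x.2))
      · intro x hx
        simp only [Finset.mem_coe, Finset.mem_filter, Finset.mem_univ, true_and] at hx ⊢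
        exact Encodable.encode_injective hx
      · intro x _ y _ h
        simp only [Prod.mk.injEq] at h
        exact Prod.ext (e.injective h.1) (e.injective h.2)
    · have : (Finset.univ.filter fun x : Fin (2 * c ^ 2) × Fin (2 * c ^ 2) =>
          Encodable.encode (B w (e x.1) (e x.2)) = s) = ∅ := by
        apply Finset.filter_eq_empty_iff.mpr
        intro x _ hx
        exact hs ⟨_, hx⟩
      simp only
      rw [this]
      simp
  · intro σ
    by_contra hcon
    push Not at hcon
    refine no_transversal h6 ((e.symm.trans σ).trans e) ?_
    intro p q hpq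
    by_contra hne
    refine hcon (e.symm p) (e.symm q) (fun h => hne (e.symm.injective h)) ?_
    simp only [Equiv.trans_apply] at hpq
    simp only [Equiv.apply_symm_apply]
    rw [hpq]

end Pool.Agent.Results.MP_4f9096_co.ParityBlowup
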